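import Pool.Agent.H828R3.Exc.Law

set_option autoImplicit false

/-! The law of large numbers for the 3x+1 map, with a power saving for the exceptional set. -/

namespace Pool.Agent.Results.MP_a1568a_nt.PowerSavingLaw

/-- The `3x+1` function. -/
def T (n : ℕ) : ℕ := if n % 2 = 0 then n / 2 else (3 * n + 1) / 2

/-- The trajectory of `n` reaches a value `≤ y` at some time `m ≤ (1 + ε) (2 / log (4/3)) log n`, stays
`≤ V` until then, and `log T^j n` differs from `log n - (j/2) log (4/3)` by at most `ε log n` for all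
`j ≤ m`. -/
def Regular (ε y V : ℝ) (n : ℕ) : Prop :=
  ∃ m : ℕ, ((T^[m] n : ℕ) : ℝ) ≤ y ∧ (m : ℝ) ≤ (1 + ε) * (2 / Real.log (4 / 3)) * Real.log n ∧
    ∀ j ≤ m, |Real.log (T^[j] n : ℕ) - (Real.log n - j / 2 * Real.log (4 / 3))| ≤ ε * Real.log n ∧
      ((T^[j] n : ℕ) : ℝ) ≤ V

theorem T_eq : T = Pool.Agent.Helper894.Collatz.T := rfl

theorem regular_of {ε y V : ℝ} {n : ℕ} (hn : 1 ≤ n) (h : Pool.Agent.H828R3.Exc.Pr ε y V n) :
    Regular ε y V n := by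
  obtain ⟨m, h1, h2⟩ := h
  rw [← T_eq] at h1 h2
  have hμ : Pool.Agent.H319R2.Lln.mu = Real.log (4 / 3) / 2 := rfl
  have hl : 0 < Real.log (4 / 3) := Real.log_pos (by norm_num)
  refine ⟨m, h1, ?_, fun j hj => ?_⟩
  · have h3 := (h2 m le_rfl).1
    have hpos : 0 < T^[m] n := by rw [T_eq]; exact Pool.Agent.H377R2.iter_pos (by omega) m
    have h4 : 0 ≤ Real.log (T^[m] n : ℕ) := Real.log_natCast_nonneg _
    have h5 := (abs_le.1 h3).2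
    rw [hμ] at h5
    have h6 : (m : ℝ) * Real.log (4 / 3) ≤ 2 * ((1 + ε) * Real.log n) := by linarith
    have h7 : (1 + ε) * (2 / Real.log (4 / 3)) * Real.log n
        = 2 * ((1 + ε) * Real.log n) / Real.log (4 / 3) := by ring
    rw [h7, le_div_iff₀ hl]
    exact h6
  · obtain ⟨h3, h4⟩ := h2 j hj
    refine ⟨?_, h4⟩
    rw [hμ] at h3
    have e : Real.log (T^[j] n : ℕ) - (Real.log n - j / 2 * Real.log (4 / 3))
        = Real.log (T^[j] n : ℕ) - Real.log n + Real.log (4 / 3) / 2 * j := by ring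
    rw [e]
    exact h3

/-- THE RESULT -/
theorem result (ε : ℝ) (hε : 0 < ε) : ∃ c C : ℝ, 0 < c ∧ 0 < C ∧
    ∀ x y V : ℝ, 2 ≤ x → 1 ≤ y → x ≤ V →
      ({n : ℕ | 1 ≤ n ∧ (n : ℝ) ≤ x ∧ ¬ Regular ε y V n}.ncard : ℝ) ≤
        C * (Real.log x) ^ 4 * (x / y ^ c + x ^ 2 / V) := by
  obtain ⟨c, C, hc, hC, h⟩ := Pool.Agent.H828R3.Exc.law hε
  refine ⟨c, C, hc, hC, fun x y V hx hy hV => ?_⟩
  refine le_trans ?_ (h x y V hx hy hV)
  have hsub : {n : ℕ | 1 ≤ n ∧ (n : ℝ) ≤ x ∧ ¬ Regular ε y V n} ⊆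
      {n : ℕ | 1 ≤ n ∧ (n : ℝ) ≤ x ∧ ¬ Pool.Agent.H828R3.Exc.Pr ε y V n} :=
    fun n hn => ⟨hn.1, hn.2.1, fun h' => hn.2.2 (regular_of hn.1 h')⟩
  have hfin : {n : ℕ | 1 ≤ n ∧ (n : ℝ) ≤ x ∧ ¬ Pool.Agent.H828R3.Exc.Pr ε y V n}.Finite := by
    apply (Set.finite_Icc 1 ⌊x⌋₊).subset
    rintro n ⟨h1, h2, -⟩
    exact ⟨h1, Nat.le_floor h2⟩
  exact_mod_cast Set.ncard_le_ncard hsub hfin

end Pool.Agent.Results.MP_a1568a_nt.PowerSavingLaw
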