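import Mathlib
import Pool.Agent.H547R3.Sub.Tqk2

set_option autoImplicit false

namespace Pool.Agent.Results.MP_a1568a_nt.SimpleStoppingTimes

/-- The `3x+1` function on the natural numbers. -/
def T (n : ℕ) : ℕ := if n % 2 = 0 then n / 2 else (3 * n + 1) / 2

/-- `σ` is the total stopping time of `n`. -/
def IsTotalStoppingTime (n σ : ℕ) : Prop := T^[σ] n = 1 ∧ ∀ k < σ, T^[k] n ≠ 1

/-- The factor `w a, w (a+1), ..., w (b-1)` of the sequence `w` has period `π`. -/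
def HasPeriod (w : ℕ → ℕ) (π a b : ℕ) : Prop := ∀ j, a ≤ j → j + π < b → w (j + π) = w j

/-- The word `w 0, w 1, ..., w (n-1)` is a concatenation of `s` words (cut at `0 = t 0 ≤ t 1 ≤ ... ≤
t s = n`), each of which has some period `π` with `1 ≤ π ≤ ℓ`. -/
def Splits (w : ℕ → ℕ) (ℓ s n : ℕ) : Prop :=
  ∃ t : ℕ → ℕ, t 0 = 0 ∧ t s = n ∧ (∀ i < s, t i ≤ t (i + 1)) ∧
    ∀ i < s, ∃ π, 1 ≤ π ∧ π ≤ ℓ ∧ HasPeriod w π (t i) (t (i + 1))

open Pool.Agent.H547R3.Sub in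
lemma T_eq : T = SP := by
  funext x; simp [T, SP]

open Pool.Agent.H547R3.Sub in
lemma dec_of_splits {x ℓ s n : ℕ} (h : Splits (fun i => T^[i] x % 2) ℓ s n) :
    Dec (par (3 : ℕ) 1 x) ℓ s 0 (0 + n) := by
  obtain ⟨t, h0, hm, hmono, hper⟩ := h
  refine ⟨t, h0, by rw [zero_add, hm], hmono, fun i hi => ?_⟩
  obtain ⟨π, h1, h2, h3⟩ := hper i hi
  refine ⟨π, h1, h2, fun j hj1 hj2 => ?_⟩
  have h4 := h3 j hj1 hj2
  simp only [T_eq] at h4
  push_cast
  rw [par_nat, par_nat, h4]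

open Pool.Agent.H547R3.Sub in
/-- For all `s` and `η > 0` there are `ε > 0` and `X` such that for every `n ≥ 1` with a finite total
stopping time `σ` and every `ℓ ≤ ε σ`: if the word of the first `σ` parities of the trajectory of `n`
is a concatenation of `s` words each having a period at most `ℓ`, then
`σ ≤ max (X, (1 + η) log_2 n)`. -/
theorem result (s : ℕ) (η : ℝ) (hη : 0 < η) :
    ∃ ε : ℝ, 0 < ε ∧ ∃ X : ℝ, ∀ n σ ℓ : ℕ, 1 ≤ n → IsTotalStoppingTime n σ →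
      (ℓ : ℝ) ≤ ε * σ → Splits (fun i => T^[i] n % 2) ℓ s σ →
      (σ : ℝ) ≤ max X ((1 + η) * Real.logb 2 n) := by
  obtain ⟨ε, hε, n0, hn0⟩ :=
    init_gen2 (q := 3) Nat.prime_three (by norm_num) 1 (by norm_num) s η hη
  refine ⟨ε, hε, n0, fun x n ℓ hx1 hσ hℓ hS => ?_⟩
  by_contra hcon
  push Not at hcon
  have hn1 : n0 ≤ n := by
    have : (n0 : ℝ) ≤ n := (le_max_left _ _).trans hcon.le
    exact_mod_cast this
  have hn2 : (1 + η) * Real.logb 2 x ≤ n := (le_max_right _ _).trans hcon.le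
  obtain ⟨j, π, -, h1, h2, h3, h4⟩ := hn0 (x : ℤ) 0 n ℓ hn1 hℓ
    (by
      simp only [Function.iterate_zero, id, Int.cast_natCast, Nat.abs_cast]
      exact hn2) (dec_of_splits hS)
  rw [zero_add] at h3
  have h5 := Tm_cast x (j + π)
  have h6 := Tm_cast x j
  push_cast at h4
  rw [h5, h6] at h4
  have h7 : SP^[j + π] x = SP^[j] x := by exact_mod_cast h4
  obtain ⟨hσ1, hσ2⟩ := hσ
  rw [T_eq] at hσ1 hσ2
  apply hσ2 (n - π) (by omega)
  have e1 : SP^[n] x = SP^[n - π - j] (SP^[j + π] x) := by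
    rw [← Function.iterate_add_apply]; congr 2; omega
  have e2 : SP^[n - π] x = SP^[n - π - j] (SP^[j] x) := by
    rw [← Function.iterate_add_apply]; congr 2; omega
  rw [e2, ← h7, ← e1, hσ1]

end Pool.Agent.Results.MP_a1568a_nt.SimpleStoppingTimes
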